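import Pool.Agent.P.MP_e2f23e_nt.SD.Lim

namespace Pool.Agent.Results.MP_e2f23e_nt.BalancedSubset

open Filter Topology Pool.Agent.P.MP_e2f23e_nt

/-- There is a set of primes of relative density one whose walk has infinitely many zeros and
for which the ratio of the areas tends to one. -/
theorem result : ∃ T : ℕ → Bool, (∀ k, T k = true → k.Prime) ∧
    Tendsto (fun x => (cnt T x : ℝ) / Nat.primeCounting x) atTop (𝓝 1) ∧
    (∃ᶠ k in atTop, walk T k = 0) ∧
    Tendsto (fun n => (Apos T n : ℝ) / Aneg T n) atTop (𝓝 1) :=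
  SD.balanced

end Pool.Agent.Results.MP_e2f23e_nt.BalancedSubset
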