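import Pool.Agent.P.MP_e2f23e_nt.Main
import Pool.Agent.P.MP_e2f23e_nt.Cramer

namespace Pool.Agent.Results.MP_e2f23e_nt.RandomModel

open Finset MeasureTheory ProbabilityTheory Filter Pool.Agent.P.MP_e2f23e_nt

/-- In independent random models of the primes the walk has infinitely many zeros and the ratio
of the areas has lower limit zero and upper limit infinity, almost surely. -/
theorem result {Ω : Type} [MeasurableSpace Ω] (μ : Measure Ω) [IsProbabilityMeasure μ]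
    (X : ℕ → Ω → Bool) (hm : ∀ n, Measurable (X n)) (hi : iIndepFun X μ) (c C : ℝ) (hc : 0 < c)
    (hp : ∀ᶠ n : ℕ in atTop, μ.real {ω | X n ω = true} ≤ 1 / 4 ∧
      c ≤ ∑ j ∈ Ioc n (n + ⌊Real.log n⌋₊), μ.real {ω | X j ω = true} ∧
      ∑ j ∈ Ioc n (n + ⌊Real.log n⌋₊), μ.real {ω | X j ω = true} ≤ C) :
    ∀ᵐ ω ∂μ, (∃ᶠ k in atTop, walk (fun j => X j ω) k = 0) ∧ ∀ M : ℕ,
      (∃ᶠ n in atTop, M * Aneg (fun j => X j ω) n < Apos (fun j => X j ω) n) ∧
      ∃ᶠ n in atTop, M * Apos (fun j => X j ω) n < Aneg (fun j => X j ω) n :=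
  main ⟨hm, hi⟩ hc hp

end Pool.Agent.Results.MP_e2f23e_nt.RandomModel
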