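import Pool.Agent.P.MP_e2f23e_nt.SD.Stage

namespace Pool.Agent.Results.MP_e2f23e_nt.SparseDeletion

open Finset Filter Pool.Agent.P.MP_e2f23e_nt

/-- After removing an arbitrarily sparse subset from an infinite set with arbitrarily long gaps,
such as the primes, the walk has infinitely many zeros and the ratio of the areas has lower limit
zero and upper limit infinity. -/
theorem result (S : ℕ → Bool) (hinf : ∀ N, ∃ p, N < p ∧ S p = true)
    (hgap : ∀ L, ∃ a, ∀ k, a < k → k ≤ a + L → S k = false)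
    (w : ℕ → ℕ) (hw : Tendsto w atTop atTop) :
    ∃ T : ℕ → Bool, (∀ k, T k = true → S k = true) ∧
      (∀ x, ((Icc 1 x).filter fun k => S k = true ∧ T k = false).card ≤ w x) ∧
      (∃ᶠ k in atTop, walk T k = 0) ∧ ∀ M : ℕ,
        (∃ᶠ n in atTop, M * Aneg T n < Apos T n) ∧ ∃ᶠ n in atTop, M * Apos T n < Aneg T n :=
  SD.main ⟨hinf, hgap⟩ hw

end Pool.Agent.Results.MP_e2f23e_nt.SparseDeletion
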